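import Pool.Agent.Q211.Cra.Cramer
import Pool.Agent.Q211.Cra.Atom

/-!
MP_c7609e_pr: the functions `L_c(s) = 1 - c + c exp (-s)`, `0 < c < 1`, belong to the class, are not
exponentials, and have property (R).
-/

set_option autoImplicit false
open MeasureTheory ProbabilityTheory Set Filter Topology
open scoped NNReal ENNReal

namespace Pool.Agent.Results.MP_c7609e_pr.ShiftedExp

/-- Completely monotone on `[0,∞)`: continuous there, smooth on `(0,∞)`, derivatives of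
alternating sign. -/
def CompletelyMonotone (L : ℝ → ℝ) : Prop :=
  ContinuousOn L (Ici 0) ∧ ContDiffOn ℝ ⊤ L (Ioi 0) ∧
    ∀ n : ℕ, ∀ s : ℝ, 0 < s → 0 ≤ (-1) ^ n * iteratedDeriv n L s

/-- The class of completely monotone injective `L : [0,∞) → (0,1]` with `L 0 = 1`. -/
structure ClassL (L : ℝ → ℝ) : Prop where
  cm : CompletelyMonotone L
  range : ∀ s : ℝ, 0 ≤ s → 0 < L s ∧ L s ≤ 1
  inj : InjOn L (Ici 0)
  zero : L 0 = 1

/-- `Φ_L (x, y) = L (L⁻¹ x + L⁻¹ y)`, with `L⁻¹` the inverse of `L` on `[0,∞)`. -/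
noncomputable def Phi (L : ℝ → ℝ) (x y : ℝ) : ℝ :=
  L (Function.invFunOn L (Ici 0) x + Function.invFunOn L (Ici 0) y)

/-- The class `𝒞` of exponents. -/
def ClassC (ψ : ℝ → ℝ) : Prop :=
  ∃ (σ : ℝ) (ν : Measure ℝ), ν (Iic 0) = 0 ∧ ∫⁻ t, ENNReal.ofReal (min 1 (t ^ 2)) ∂ν < ∞ ∧
    ∀ ξ : ℝ, ψ ξ = 1 / 2 * σ ^ 2 * ξ ^ 2 + ∫ t, (1 - Real.cos (t * ξ)) ∂ν

/-- `f` is the (real valued) characteristic function of a probability measure on `ℝ`. -/
def IsCharFn (f : ℝ → ℝ) : Prop :=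
  ∃ μ : Measure ℝ, IsProbabilityMeasure μ ∧ ∀ ξ : ℝ, charFun μ ξ = (f ξ : ℂ)

/-- Property (R). -/
def PropR (L : ℝ → ℝ) : Prop :=
  ∀ a : ℝ, 0 < a → ∀ f₁ f₂ : ℝ → ℝ, IsCharFn f₁ → IsCharFn f₂ →
    (∀ ξ, f₁ ξ ∈ L '' Ici 0) → (∀ ξ, f₂ ξ ∈ L '' Ici 0) →
    (∀ ξ, Phi L (f₁ ξ) (f₂ ξ) = L (a * ξ ^ 2)) →
    ∃ η₁ η₂ : ℝ → ℝ, ClassC η₁ ∧ ClassC η₂ ∧ (∀ ξ, f₁ ξ = L (η₁ ξ)) ∧ ∀ ξ, f₂ ξ = L (η₂ ξ)

theorem inv_apply {L : ℝ → ℝ} (hL : InjOn L (Ici 0)) {u : ℝ} (hu : 0 ≤ u) :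
    Function.invFunOn L (Ici 0) (L u) = u := by
  have h1 : L u ∈ L '' Ici 0 := ⟨u, hu, rfl⟩
  exact hL (Function.invFunOn_mem h1) hu (Function.invFunOn_eq h1)

theorem classC_sq {c : ℝ} (hc : 0 ≤ c) : ClassC (fun ξ => c * ξ ^ 2) := by
  refine ⟨Real.sqrt (2 * c), 0, by simp, by simp, fun ξ => ?_⟩
  rw [Real.sq_sqrt (by positivity)]
  simp

/-- Cramér's theorem: the exponential has property (R). -/
theorem propR_exp : PropR (fun s => Real.exp (-s)) := by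
  intro a ha f₁ f₂ h1 h2 hi1 hi2 hP
  obtain ⟨μ, hμ, hμf⟩ := h1
  obtain ⟨ν, hν, hνf⟩ := h2
  have hinj : InjOn (fun s : ℝ => Real.exp (-s)) (Ici 0) := by
    intro x _ y _ h
    have := Real.exp_injective h
    linarith
  have hpos1 : ∀ t, 0 < f₁ t := fun t => by
    obtain ⟨u, _, hu⟩ := hi1 t; rw [← hu]; exact Real.exp_pos _
  have hpos2 : ∀ t, 0 < f₂ t := fun t => by
    obtain ⟨u, _, hu⟩ := hi2 t; rw [← hu]; exact Real.exp_pos _
  have hmul : ∀ t, f₁ t * f₂ t = Real.exp (-(a * t ^ 2)) := by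
    intro t
    obtain ⟨u, hu0, hu⟩ := hi1 t
    obtain ⟨v, hv0, hv⟩ := hi2 t
    have := hP t
    rw [← hu, ← hv, Phi, inv_apply hinj hu0, inv_apply hinj hv0] at this
    simp only at this hu hv
    rw [← hu, ← hv, ← this, ← Real.exp_add]; ring_nf
  obtain ⟨c, hc, hcf⟩ := Q211.Cra.cramer hμf hνf ha.le hmul hpos1
  obtain ⟨d, hd, hdf⟩ := Q211.Cra.cramer hνf hμf ha.le (fun t => by rw [mul_comm]; exact hmul t)
    hpos2
  exact ⟨_, _, classC_sq hc, classC_sq hd, hcf, hdf⟩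

/-- Property (R) passes from `L` to `1 - c + c L`. -/
theorem propR_shift {L : ℝ → ℝ} (hL : ClassL L) (hR : PropR L) {c : ℝ} (hc : 0 < c) :
    PropR (fun s => 1 - c + c * L s) := by
  intro a ha f₁ f₂ h1 h2 hi1 hi2 hP
  obtain ⟨μ, hμ, hμf⟩ := h1
  obtain ⟨ν, hν, hνf⟩ := h2
  have hinj : InjOn (fun s : ℝ => 1 - c + c * L s) (Ici 0) := by
    intro x hx y hy h
    have h3 : c * L x = c * L y := by simpa using h
    exact hL.inj hx hy (mul_left_cancel₀ hc.ne' h3)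
  have hge : ∀ f : ℝ → ℝ, (∀ ξ, f ξ ∈ (fun s : ℝ => 1 - c + c * L s) '' Ici 0) →
      ∀ ξ, 1 - c ≤ f ξ := by
    intro f hf ξ
    obtain ⟨u, hu0, hu⟩ := hf ξ
    rw [← hu]
    have := (hL.range u hu0).1
    have := mul_pos hc this
    simp only
    linarith
  obtain ⟨μ', hμ', hμf'⟩ := Q211.Cra.shift hμf hc (hge f₁ hi1)
  obtain ⟨ν', hν', hνf'⟩ := Q211.Cra.shift hνf hc (hge f₂ hi2)
  have hmem : ∀ f : ℝ → ℝ, ∀ ξ, f ξ ∈ (fun s : ℝ => 1 - c + c * L s) '' Ici 0 →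
      ∃ u, 0 ≤ u ∧ f ξ = 1 - c + c * L u ∧ (f ξ - (1 - c)) / c = L u := by
    intro f ξ hf
    obtain ⟨u, hu0, hu⟩ := hf
    refine ⟨u, hu0, hu.symm, ?_⟩
    rw [← hu]; field_simp; ring
  obtain ⟨η₁, η₂, c1, c2, e1, e2⟩ := hR a ha (fun ξ => (f₁ ξ - (1 - c)) / c)
    (fun ξ => (f₂ ξ - (1 - c)) / c) ⟨μ', hμ', hμf'⟩ ⟨ν', hν', hνf'⟩
    (fun ξ => by
      obtain ⟨u, hu0, _, hu⟩ := hmem f₁ ξ (hi1 ξ)
      exact ⟨u, hu0, hu.symm⟩)
    (fun ξ => by
      obtain ⟨u, hu0, _, hu⟩ := hmem f₂ ξ (hi2 ξ)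
      exact ⟨u, hu0, hu.symm⟩)
    (fun ξ => by
      obtain ⟨u, hu0, hu1, hu2⟩ := hmem f₁ ξ (hi1 ξ)
      obtain ⟨v, hv0, hv1, hv2⟩ := hmem f₂ ξ (hi2 ξ)
      have h3 := hP ξ
      rw [hu2, hv2, Phi, inv_apply hL.inj hu0, inv_apply hL.inj hv0]
      rw [hu1, hv1, Phi] at h3
      have i1 := inv_apply hinj hu0
      have i2 := inv_apply hinj hv0
      rw [i1, i2] at h3
      have h4 : c * L (u + v) = c * L (a * ξ ^ 2) := by linarith
      exact mul_left_cancel₀ hc.ne' h4)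
  refine ⟨η₁, η₂, c1, c2, fun ξ => ?_, fun ξ => ?_⟩
  · have := e1 ξ
    simp only at this ⊢
    rw [← this]; field_simp; ring
  · have := e2 ξ
    simp only at this ⊢
    rw [← this]; field_simp; ring

theorem iter_exp_neg (n : ℕ) : iteratedDeriv n (fun s : ℝ => Real.exp (-s)) =
    fun s => (-1) ^ n * Real.exp (-s) := by
  induction n with
  | zero => simp [iteratedDeriv_zero]
  | succ n ih =>
    rw [iteratedDeriv_succ, ih]
    funext s
    have : HasDerivAt (fun s : ℝ => (-1) ^ n * Real.exp (-s))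
        ((-1) ^ n * (Real.exp (-s) * -1)) s := by
      have h1 : HasDerivAt (fun s : ℝ => -s) (-1) s := hasDerivAt_neg s
      exact (h1.exp).const_mul _
    rw [this.deriv]; ring

theorem classL_exp : ClassL (fun s => Real.exp (-s)) := by
  refine ⟨⟨by fun_prop, ?_, ?_⟩, ?_, ?_, by simp⟩
  · exact (Real.contDiff_exp.comp contDiff_neg).contDiffOn
  · intro n s _
    rw [iter_exp_neg]
    have : ((-1 : ℝ) ^ n) * ((-1) ^ n * Real.exp (-s)) = Real.exp (-s) := by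
      rw [← mul_assoc, ← mul_pow]; simp
    rw [this]; exact (Real.exp_pos _).le
  · intro s hs
    exact ⟨Real.exp_pos _, Real.exp_le_one_iff.2 (by linarith)⟩
  · intro x _ y _ h
    have := Real.exp_injective h
    linarith

theorem classL_shift {L : ℝ → ℝ} (hL : ClassL L) {c : ℝ} (hc : 0 < c) (hc1 : c < 1) :
    ClassL (fun s => 1 - c + c * L s) := by
  obtain ⟨⟨h1, h2, h3⟩, hr, hi, hz⟩ := hL
  refine ⟨⟨by fun_prop, ?_, ?_⟩, ?_, ?_, by simp [hz]⟩
  · exact contDiffOn_const.add (contDiffOn_const.mul h2)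
  · intro n s hs
    have hn : iteratedDeriv (n + 1) (fun s => 1 - c + c * L s) s =
        c * iteratedDeriv (n + 1) L s := by
      have e1 : iteratedDeriv (n + 1) (fun s => 1 - c + c * L s) =
          iteratedDeriv (n + 1) (fun s => c * L s) := by
        rw [iteratedDeriv_succ', iteratedDeriv_succ']
        congr 1
        funext x
        exact deriv_const_add _
      rw [e1]
      exact iteratedDeriv_const_mul_field c L
    rcases n with _ | n
    · have := hr s hs.le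
      simp only [pow_zero, iteratedDeriv_zero, one_mul]
      nlinarith [mul_pos hc this.1]
    · have hn' : iteratedDeriv (n + 1) (fun s => 1 - c + c * L s) s =
          c * iteratedDeriv (n + 1) L s := by
        have e1 : iteratedDeriv (n + 1) (fun s => 1 - c + c * L s) =
            iteratedDeriv (n + 1) (fun s => c * L s) := by
          rw [iteratedDeriv_succ', iteratedDeriv_succ']
          congr 1
          funext x
          exact deriv_const_add _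
        rw [e1]
        exact iteratedDeriv_const_mul_field c L
      rw [hn']
      have := h3 (n + 1) s hs
      nlinarith [mul_nonneg hc.le this]
  · intro s hs
    have := hr s hs
    exact ⟨by nlinarith [mul_pos hc this.1], by nlinarith [mul_le_mul_of_nonneg_left this.2 hc.le]⟩
  · intro x hx y hy h
    have h3 : c * L x = c * L y := by simpa using h
    exact hi hx hy (mul_left_cancel₀ hc.ne' h3)

theorem not_exp {c : ℝ} (hc1 : c < 1) :
    ¬ ∃ k : ℝ, 0 < k ∧ ∀ s : ℝ, 0 ≤ s → 1 - c + c * Real.exp (-s) = Real.exp (-(k * s)) := by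
  rintro ⟨k, hk, h⟩
  have l1 : Tendsto (fun s : ℝ => 1 - c + c * Real.exp (-s)) atTop (𝓝 (1 - c + c * 0)) :=
    ((Real.tendsto_exp_atBot.comp tendsto_neg_atTop_atBot).const_mul c).const_add (1 - c)
  have l2 : Tendsto (fun s : ℝ => Real.exp (-(k * s))) atTop (𝓝 0) :=
    Real.tendsto_exp_atBot.comp (tendsto_neg_atTop_atBot.comp (tendsto_id.const_mul_atTop hk))
  have l3 : Tendsto (fun s : ℝ => 1 - c + c * Real.exp (-s)) atTop (𝓝 0) :=
    l2.congr' ((eventually_ge_atTop 0).mono fun s hs => (h s hs).symm)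
  have := tendsto_nhds_unique l1 l3
  linarith

/-- For `0 < c < 1` the function `1 - c + c exp (-s)` is in the class, is not an exponential, and
has property (R); more generally property (R) passes from `L` to `1 - c + c L`.  So the
characterisation asked for fails. -/
theorem result :
    (∀ L : ℝ → ℝ, ClassL L → PropR L → ∀ c : ℝ, 0 < c → c < 1 →
      ClassL (fun s => 1 - c + c * L s) ∧ PropR (fun s => 1 - c + c * L s)) ∧
    (∀ c : ℝ, 0 < c → c < 1 →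
      ClassL (fun s => 1 - c + c * Real.exp (-s)) ∧
      PropR (fun s => 1 - c + c * Real.exp (-s)) ∧
      ¬ ∃ k : ℝ, 0 < k ∧ ∀ s : ℝ, 0 ≤ s → 1 - c + c * Real.exp (-s) = Real.exp (-(k * s))) ∧
    ¬ ∀ L : ℝ → ℝ, ClassL L →
      (PropR L ↔ ∃ k : ℝ, 0 < k ∧ ∀ s : ℝ, 0 ≤ s → L s = Real.exp (-(k * s))) := by
  have h2 : ∀ c : ℝ, 0 < c → c < 1 →
      ClassL (fun s => 1 - c + c * Real.exp (-s)) ∧
      PropR (fun s => 1 - c + c * Real.exp (-s)) ∧
      ¬ ∃ k : ℝ, 0 < k ∧ ∀ s : ℝ, 0 ≤ s → 1 - c + c * Real.exp (-s) = Real.exp (-(k * s)) :=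
    fun c hc hc1 => ⟨classL_shift classL_exp hc hc1, propR_shift classL_exp propR_exp hc,
      not_exp hc1⟩
  refine ⟨fun L hL hR c hc hc1 => ⟨classL_shift hL hc hc1, propR_shift hL hR hc⟩, h2, ?_⟩
  intro h
  obtain ⟨h3, h4, h5⟩ := h2 (1 / 2) (by norm_num) (by norm_num)
  exact h5 ((h _ h3).1 h4)

end Pool.Agent.Results.MP_c7609e_pr.ShiftedExp
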